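import Pool.Agent.W2helper21.RF.Stm

/-!
# Project RF: the selection theorem
-/

namespace Pool.Agent.W2helper98.RF

open MvPolynomial Pool.Agent.W2helper21.RF Pool.Agent.W2helper21.RK

variable {F : Type*} [Field F]

/-- a variable occurs if and only if it is read -/
theorem mem_vars (D : Fm F) (u : ℕ) : u ∈ D.vars ↔ 1 ≤ D.rdc u := by
  induction D with
  | leaf p =>
    by_cases h : u ∈ p.vars
    · simp [Fm.vars, Fm.rdc, h]
    · simp [Fm.vars, Fm.rdc, h]
  | add f g hf hg =>
    rw [Fm.vars, Fm.rdc, Finset.mem_union, hf, hg]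
    omega
  | mul f g hf hg =>
    rw [Fm.vars, Fm.rdc, Finset.mem_union, hf, hg]
    omega

theorem rdl_nil (u : ℕ) : rdl ([] : List (Bool × Fm F)) u = 0 := rfl

theorem rdl_cons (p : Bool × Fm F) (l : List (Bool × Fm F)) (u : ℕ) :
    rdl (p :: l) u = p.2.rdc u + rdl l u := by
  unfold rdl
  rw [List.map_cons, List.sum_cons]

theorem rdl_append (l1 l2 : List (Bool × Fm F)) (u : ℕ) :
    rdl (l1 ++ l2) u = rdl l1 u + rdl l2 u := by
  unfold rdl
  rw [List.map_append, List.sum_append]

theorem rdl_pos {l : List (Bool × Fm F)} {p : Bool × Fm F} {u : ℕ} (hp : p ∈ l)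
    (hu : u ∈ p.2.vars) : 1 ≤ rdl l u := by
  induction l with
  | nil => cases hp
  | cons q l ih =>
    rw [rdl_cons]
    rcases List.mem_cons.mp hp with rfl | h
    · have := (mem_vars p.2 u).mp hu
      omega
    · have := ih h
      omega

theorem plug_rdl {D : Fm F} {l : List (Bool × Fm F)} (h : Plug D l) (u : ℕ) :
    rdl l u = D.rdc u := by
  induction h with
  | nil D => rw [rdl_cons, rdl_nil, Nat.add_zero]
  | addL h ih => rw [rdl_cons, ih, Fm.rdc, Nat.add_comm]
  | addR h ih => rw [rdl_cons, ih, Fm.rdc]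
  | mulL h ih => rw [rdl_cons, ih, Fm.rdc, Nat.add_comm]
  | mulR h ih => rw [rdl_cons, ih, Fm.rdc]

theorem plug_loc {b : ℕ} {D : Fm F} {l : List (Bool × Fm F)} (h : Plug D l) (hD : D.Loc b) :
    ∀ p ∈ l, p.2.Loc b := by
  induction h with
  | nil D =>
    intro p hp
    rw [List.mem_singleton] at hp
    rw [hp]
    exact hD
  | addL h ih =>
    intro p hp
    rcases List.mem_cons.mp hp with rfl | hp
    · exact hD.2
    · exact ih hD.1 p hp
  | addR h ih =>
    intro p hp
    rcases List.mem_cons.mp hp with rfl | hp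
    · exact hD.1
    · exact ih hD.2 p hp
  | mulL h ih =>
    intro p hp
    rcases List.mem_cons.mp hp with rfl | hp
    · exact hD.2
    · exact ih hD.1 p hp
  | mulR h ih =>
    intro p hp
    rcases List.mem_cons.mp hp with rfl | hp
    · exact hD.1
    · exact ih hD.2 p hp

/-- the variables of the entry number `q` -/
noncomputable def vr (l : List (Bool × Fm F)) (q : ℕ) : Finset ℕ :=
  ((l[q]?).map fun p => p.2.vars).getD ∅

theorem vr_eq {l : List (Bool × Fm F)} {q : ℕ} (h : q < l.length) : vr l q = (l[q]).2.vars := by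
  unfold vr
  rw [List.getElem?_eq_getElem h]
  rfl

theorem vr_nil (q : ℕ) : vr ([] : List (Bool × Fm F)) q = ∅ := rfl

theorem vr_zero (p : Bool × Fm F) (l : List (Bool × Fm F)) : vr (p :: l) 0 = p.2.vars := rfl

theorem vr_succ (p : Bool × Fm F) (l : List (Bool × Fm F)) (q : ℕ) :
    vr (p :: l) (q + 1) = vr l q := rfl

theorem count_le (u : ℕ) : ∀ l : List (Bool × Fm F),
    ((Finset.range l.length).filter fun q => u ∈ vr l q).card ≤ rdl l u := by
  intro l
  induction l with
  | nil => simp [rdl_nil]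
  | cons p l ih =>
    rw [rdl_cons, List.length_cons, Finset.card_filter, Finset.sum_range_succ']
    rw [Finset.card_filter] at ih
    have h1 : (if u ∈ p.2.vars then 1 else 0) ≤ p.2.rdc u := by
      split_ifs with h
      · exact (mem_vars p.2 u).mp h
      · exact Nat.zero_le _
    rw [Nat.add_comm (p.2.rdc u)]
    exact Nat.add_le_add ih h1

/-- at most one variable of `S` in every entry -/
def Ind (S : Finset ℕ) (l : List (Bool × Fm F)) : Prop :=
  ∀ p ∈ l, ∀ u ∈ S, ∀ u' ∈ S, u ∈ p.2.vars → u' ∈ p.2.vars → u = u'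

/-- the flat lemma -/
theorem flat_lemma {k s : ℕ} {l : List (Bool × Fm F)} {J0 : Finset ℕ} (hI : Ind J0 l)
    (hr : ∀ u ∈ J0, rdl l u ≤ k) (hc : Bk k s ≤ J0.card) :
    ∃ J ⊆ J0, J.card = s ∧ ∀ n, Nc J k n l := by
  classical
  let v : ℕ → ℕ := fun q => if h : ∃ u ∈ J0, u ∈ vr l q then h.choose else J0.sup id + 1
  have hv1 : ∀ q u, u ∈ J0 → v q = u → u ∈ vr l q := by
    intro q u hu hq
    by_cases h : ∃ u ∈ J0, u ∈ vr l q
    · have h1 : v q = h.choose := dif_pos h
      rw [← hq, h1]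
      exact h.choose_spec.2
    · have h1 : v q = J0.sup id + 1 := dif_neg h
      have h2 : u ≤ J0.sup id := Finset.le_sup (f := id) hu
      omega
  have hv2 : ∀ q (hq : q < l.length) u, u ∈ J0 → u ∈ (l[q]).2.vars → v q = u := by
    intro q hq u hu huv
    have h : ∃ u ∈ J0, u ∈ vr l q := ⟨u, hu, by rw [vr_eq hq]; exact huv⟩
    have h1 : v q = h.choose := dif_pos h
    rw [h1]
    have h2 := h.choose_spec
    exact hI (l[q]) (List.getElem_mem hq) _ h2.1 u hu
      ((Finset.ext_iff.mp (vr_eq hq) h.choose).mp h2.2) huv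
  have hrd : ∀ u ∈ J0, (rd v 0 l.length u).card ≤ k := by
    intro u hu
    refine le_trans (le_trans (Finset.card_le_card ?_) (count_le u l)) (hr u hu)
    intro q hq
    have h1 := mem_rd.mp hq
    rw [Finset.mem_filter, Finset.mem_range]
    exact ⟨h1.1.2, hv1 q u hu h1.2⟩
  obtain ⟨J, hJ, hJc, hJr⟩ := struct v k s 0 l.length (Nat.zero_le _) J0 hrd hc
  exact ⟨J, hJ, hJc, fun n => Nc.flat n l v (fun q hq u hu huv => hv2 q hq u (hJ hu) huv) hJr⟩

/-- independence -/
theorem indep_lemma {k m t : ℕ} {l : List (Bool × Fm F)} {S : Finset ℕ}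
    (hm : ∀ p ∈ l, (S.filter fun u => u ∈ p.2.vars).card ≤ m) (hr : ∀ u ∈ S, rdl l u ≤ k)
    (hc : t * (k * m + 1) ≤ S.card) : ∃ S' ⊆ S, S'.card = t ∧ Ind S' l := by
  classical
  have key : ∀ u, ∀ l : List (Bool × Fm F),
      (∀ p ∈ l, (S.filter fun u => u ∈ p.2.vars).card ≤ m) →
      (S.filter fun u' => ∃ p ∈ l, u ∈ p.2.vars ∧ u' ∈ p.2.vars).card ≤ rdl l u * m := by
    intro u l
    induction l with
    | nil => intro _; simp
    | cons p l ih =>
      intro hm
      have h1 := ih fun q hq => hm q (List.mem_cons_of_mem _ hq)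
      have h2 := hm p List.mem_cons_self
      rw [rdl_cons, Nat.add_mul]
      by_cases hu : u ∈ p.2.vars
      · have h3 : 1 ≤ p.2.rdc u := (mem_vars p.2 u).mp hu
        have h4 : m ≤ p.2.rdc u * m := by
          calc m = 1 * m := (Nat.one_mul m).symm
            _ ≤ p.2.rdc u * m := Nat.mul_le_mul_right m h3
        have h5 : (S.filter fun u' => ∃ q ∈ p :: l, u ∈ q.2.vars ∧ u' ∈ q.2.vars) ⊆
            (S.filter fun u => u ∈ p.2.vars) ∪
              (S.filter fun u' => ∃ q ∈ l, u ∈ q.2.vars ∧ u' ∈ q.2.vars) := by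
          intro u' hu'
          rw [Finset.mem_filter] at hu'
          obtain ⟨h6, q, hq, h7, h8⟩ := hu'
          rw [Finset.mem_union, Finset.mem_filter, Finset.mem_filter]
          rcases List.mem_cons.mp hq with rfl | hq
          · exact Or.inl ⟨h6, h8⟩
          · exact Or.inr ⟨h6, q, hq, h7, h8⟩
        have h6 := (Finset.card_le_card h5).trans (Finset.card_union_le _ _)
        omega
      · have h5 : (S.filter fun u' => ∃ q ∈ p :: l, u ∈ q.2.vars ∧ u' ∈ q.2.vars) ⊆
            (S.filter fun u' => ∃ q ∈ l, u ∈ q.2.vars ∧ u' ∈ q.2.vars) := by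
          intro u' hu'
          rw [Finset.mem_filter] at hu'
          obtain ⟨h6, q, hq, h7, h8⟩ := hu'
          rw [Finset.mem_filter]
          rcases List.mem_cons.mp hq with rfl | hq
          · exact absurd h7 hu
          · exact ⟨h6, q, hq, h7, h8⟩
        have h6 := Finset.card_le_card h5
        omega
  let Nb : ℕ → Finset ℕ := fun u =>
    if u ∈ S then S.filter fun u' => ∃ p ∈ l, u ∈ p.2.vars ∧ u' ∈ p.2.vars else ∅
  have hNb : ∀ u, (Nb u).card ≤ k * m := by
    intro u
    by_cases hu : u ∈ S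
    · simp only [Nb, if_pos hu]
      exact (key u l hm).trans (Nat.mul_le_mul_right m (hr u hu))
    · simp only [Nb, if_neg hu, Finset.card_empty]
      exact Nat.zero_le _
  have hmem : ∀ u u', u' ∈ Nb u ↔ u ∈ S ∧ u' ∈ S ∧ ∃ p ∈ l, u ∈ p.2.vars ∧ u' ∈ p.2.vars := by
    intro u u'
    by_cases hu : u ∈ S
    · simp only [Nb, if_pos hu, Finset.mem_filter, hu, true_and]
    · simp only [Nb, if_neg hu, Finset.notMem_empty, hu, false_and]
  have hsym : ∀ u u', u' ∈ Nb u → u ∈ Nb u' := by
    intro u u' h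
    rw [hmem] at h ⊢
    obtain ⟨h1, h2, p, hp, h3, h4⟩ := h
    exact ⟨h2, h1, p, hp, h4, h3⟩
  obtain ⟨S', hS', hc', hi⟩ :=
    Pool.Agent.W2helper21.LP.indep Nb (k * m) hNb hsym t S hc
  refine ⟨S', hS', hc', ?_⟩
  intro p hp u hu u' hu' h1 h2
  by_contra hne
  exact hi u hu u' hu' hne ((hmem u u').mpr ⟨hS' hu, hS' hu', p, hp, h1, h2⟩)

theorem nc_succ {J : Finset ℕ} {k n : ℕ} {l : List (Bool × Fm F)} (h : Nc J k n l) :
    Nc J k (n + 1) l := by
  induction h with
  | flat n l v h hr => exact Nc.flat _ l v h hr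
  | split n l1 l2 l' b D hP h1 h' h2 ih1 ih' ih2 => exact Nc.split _ l1 l2 l' b D hP ih1 ih' ih2

theorem nc_anti {J J' : Finset ℕ} {k n : ℕ} {l : List (Bool × Fm F)} (h : Nc J k n l)
    (hJ : J' ⊆ J) : Nc J' k n l := by
  induction h with
  | flat n l v h hr =>
    exact Nc.flat _ l v (fun q hq u hu => h q hq u (hJ hu)) (hr.mono hJ)
  | split n l1 l2 l' b D hP h1 h' h2 ih1 ih' ih2 => exact Nc.split _ l1 l2 l' b D hP ih1 ih' ih2

/-- the statement for a given number of reads -/
def Sel (F : Type*) [Field F] (k b r : ℕ) : Prop :=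
  ∀ (l : List (Bool × Fm F)) (S : Finset ℕ) (s : ℕ),
    (∀ p ∈ l, p.2.Loc b) → (∀ u ∈ S, rdl l u ≤ r) → Phi k b r s ≤ S.card →
    ∃ J ⊆ S, J.card = s ∧ Nc J k (2 * r) l

/-- several lists -/
theorem several {k b r : ℕ} (h : Sel F k b r) : ∀ (Ls : List (List (Bool × Fm F))) (s : ℕ)
    (S : Finset ℕ), (∀ l ∈ Ls, ∀ p ∈ l, p.2.Loc b) → (∀ l ∈ Ls, ∀ u ∈ S, rdl l u ≤ r) →
    (Phi k b r)^[Ls.length] s ≤ S.card →
    ∃ J ⊆ S, J.card = s ∧ ∀ l ∈ Ls, Nc J k (2 * r) l := by
  intro Ls
  induction Ls with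
  | nil =>
    intro s S _ _ hS
    rw [List.length_nil, Function.iterate_zero, id] at hS
    obtain ⟨J, hJ, hJc⟩ := Finset.exists_subset_card_eq hS
    exact ⟨J, hJ, hJc, by simp⟩
  | cons l Ls ih =>
    intro s S hloc hr hS
    rw [List.length_cons, Function.iterate_succ_apply] at hS
    obtain ⟨J', hJ', hJ'c, hJ'n⟩ := ih (Phi k b r s) S
      (fun l' hl' => hloc l' (List.mem_cons_of_mem _ hl'))
      (fun l' hl' => hr l' (List.mem_cons_of_mem _ hl')) hS
    obtain ⟨J, hJ, hJc, hJn⟩ := h l J' s (hloc l List.mem_cons_self)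
      (fun u hu => hr l List.mem_cons_self u (hJ' hu)) hJ'c.ge
    refine ⟨J, hJ.trans hJ', hJc, fun l' hl' => ?_⟩
    rcases List.mem_cons.mp hl' with rfl | hl'
    · exact hJn
    · exact nc_anti (hJ'n l' hl') hJ

theorem sel_step (hcat : P_CAT F) {k b r : ℕ} (hrk : r + 1 ≤ k) (ih : Sel F k b r) :
    Sel F k b (r + 1) := by
  classical
  intro l S s hloc hr hS
  have hP : Phi k b (r + 1) s =
      Bk k s * (k * ((b + 1) * 2 ^ (Bk k ((Phi k b r)^[5] s) *
        (k * ((Phi k b r)^[5] s + 1) + 1))) + 1) +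
      (b + 1) * 2 ^ (Bk k ((Phi k b r)^[5] s) * (k * ((Phi k b r)^[5] s + 1) + 1)) +
      Bk k ((Phi k b r)^[5] s) * (k * ((Phi k b r)^[5] s + 1) + 1) + (Phi k b r)^[5] s := rfl
  rw [hP] at hS
  set B := (Phi k b r)^[5] s with hB
  set E := Bk k B * (k * (B + 1) + 1) with hE
  set m := (b + 1) * 2 ^ E with hm
  have h2r : 2 * (r + 1) = 2 * r + 1 + 1 := by ring
  rw [h2r]
  by_cases h1 : ∃ p ∈ l, m ≤ (S.filter fun u => u ∈ p.2.vars).card
  · obtain ⟨p, hp, hpm⟩ := h1
    obtain ⟨l1, l2, rfl⟩ := List.append_of_mem hp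
    obtain ⟨β, D⟩ := p
    have hD : D.Loc b := hloc _ hp
    obtain ⟨l', hPl, J1, hJ1, hJ1c, hcp⟩ := hcat b E D (S.filter fun u => u ∈ D.vars) hD
      (fun u hu => (Finset.mem_filter.mp hu).2) hpm
    have hJ1S : J1 ⊆ S := fun u hu => (Finset.mem_filter.mp (hJ1 hu)).1
    have hJ1D : ∀ u ∈ J1, 1 ≤ D.rdc u := fun u hu =>
      (mem_vars D u).mp (Finset.mem_filter.mp (hJ1 hu)).2
    have hsum : ∀ u ∈ J1, rdl l1 u + (D.rdc u + rdl l2 u) ≤ r + 1 := by
      intro u hu
      have h3 := hr u (hJ1S hu)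
      rw [rdl_append, rdl_cons] at h3
      exact h3
    have hl1 : ∀ p ∈ l1, p.2.Loc b := fun q hq => hloc q (List.mem_append_left _ hq)
    have hl2 : ∀ p ∈ l2, p.2.Loc b := fun q hq =>
      hloc q (List.mem_append_right _ (List.mem_cons_of_mem _ hq))
    have hl' : ∀ p ∈ l', p.2.Loc b := plug_loc hPl hD
    by_cases h2 : ∃ p ∈ l', B + 1 ≤ (J1.filter fun u => u ∈ p.2.vars).card
    · obtain ⟨p, hp', hpB⟩ := h2
      obtain ⟨l1', l2', rfl⟩ := List.append_of_mem hp'
      obtain ⟨u0, hu0⟩ := hcp l1' p l2' rfl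
      obtain ⟨β', D'⟩ := p
      let S2 := (J1.filter fun u => u ∈ D'.vars).erase u0
      have hS2c : B ≤ S2.card := by
        have h3 := Finset.pred_card_le_card_erase (s := J1.filter fun u => u ∈ D'.vars) (a := u0)
        have h4 : B + 1 ≤ (J1.filter fun u => u ∈ D'.vars).card := hpB
        have h5 : (J1.filter fun u => u ∈ D'.vars).card - 1 ≤ S2.card := h3
        omega
      have hS2 : ∀ u ∈ S2, u ∈ J1 ∧ rdl l1' u ≤ r ∧ D'.rdc u ≤ r ∧ rdl l2' u ≤ r ∧
          rdl l1 u ≤ r ∧ rdl l2 u ≤ r := by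
        intro u hu
        rw [Finset.mem_erase, Finset.mem_filter] at hu
        obtain ⟨hne, huJ, huD⟩ := hu
        have h3 := hsum u huJ
        have h4 := plug_rdl hPl u
        rw [rdl_append, rdl_cons] at h4
        have h5 : 1 ≤ D'.rdc u := (mem_vars D' u).mp huD
        obtain ⟨p', hp'', hup'⟩ := hu0 u huJ hne huD
        have h6 := rdl_pos hp'' hup'
        rw [rdl_append] at h6
        have h7 := hJ1D u huJ
        simp only at h4
        refine ⟨huJ, ?_, ?_, ?_, ?_, ?_⟩ <;> omega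
      obtain ⟨J, hJ, hJc, hJn⟩ := several ih [l1', [(false, D')], l2', l1, l2] s S2
        (by
          intro l0 hl0
          simp only [List.mem_cons, List.not_mem_nil, or_false] at hl0
          rcases hl0 with rfl | rfl | rfl | rfl | rfl
          · exact fun q hq => hl' q (List.mem_append_left _ hq)
          · intro q hq
            rw [List.mem_singleton] at hq
            rw [hq]
            exact hl' (β', D') hp'
          · exact fun q hq => hl' q (List.mem_append_right _ (List.mem_cons_of_mem _ hq))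
          · exact hl1
          · exact hl2)
        (by
          intro l0 hl0 u hu
          have h3 := hS2 u hu
          simp only [List.mem_cons, List.not_mem_nil, or_false] at hl0
          rcases hl0 with rfl | rfl | rfl | rfl | rfl
          · exact h3.2.1
          · rw [rdl_cons, rdl_nil, Nat.add_zero]
            exact h3.2.2.1
          · exact h3.2.2.2.1
          · exact h3.2.2.2.2.1
          · exact h3.2.2.2.2.2)
        hS2c
      have hn := fun l0 => hJn l0
      simp only [List.mem_cons, List.not_mem_nil, or_false] at hn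
      refine ⟨J, fun u hu => hJ1S (hS2 u (hJ hu)).1, hJc, ?_⟩
      refine Nc.split (2 * r + 1) l1 l2 (l1' ++ (β', D') :: l2') β D hPl
        (nc_succ (hn l1 (by simp))) ?_ (nc_succ (hn l2 (by simp)))
      exact Nc.split (2 * r) l1' l2' [(false, D')] β' D' (Plug.nil D') (hn l1' (by simp))
        (hn [(false, D')] (by simp)) (hn l2' (by simp))
    · push Not at h2
      obtain ⟨S', hS', hS'c, hI⟩ := indep_lemma (k := k) (m := B + 1) (t := Bk k B) (l := l')
        (S := J1) (fun p hp => (h2 p hp).le)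
        (fun u hu => by
          rw [plug_rdl hPl u]
          have := hsum u hu
          omega) hJ1c
      obtain ⟨J2, hJ2, hJ2c, hJ2n⟩ := flat_lemma (k := k) (s := B) (l := l') (J0 := S') hI
        (fun u hu => by
          rw [plug_rdl hPl u]
          have := hsum u (hS' hu)
          omega) hS'c.ge
      have hJ2J1 : J2 ⊆ J1 := hJ2.trans hS'
      obtain ⟨J, hJ, hJc, hJn⟩ := several ih [l1, l2, [], [], []] s J2
        (by
          intro l0 hl0
          simp only [List.mem_cons, List.not_mem_nil, or_false] at hl0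
          rcases hl0 with rfl | rfl | rfl | rfl | rfl
          · exact hl1
          · exact hl2
          all_goals simp)
        (by
          intro l0 hl0 u hu
          have h3 := hsum u (hJ2J1 hu)
          have h4 := hJ1D u (hJ2J1 hu)
          simp only [List.mem_cons, List.not_mem_nil, or_false] at hl0
          rcases hl0 with rfl | rfl | rfl | rfl | rfl
          · omega
          · omega
          all_goals (rw [rdl_nil]; exact Nat.zero_le _))
        hJ2c.ge
      refine ⟨J, (hJ.trans hJ2J1).trans hJ1S, hJc, ?_⟩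
      exact Nc.split (2 * r + 1) l1 l2 l' β D hPl
        (nc_succ (hJn l1 (by simp))) (nc_anti (hJ2n (2 * r + 1)) hJ)
        (nc_succ (hJn l2 (by simp)))
  · push Not at h1
    obtain ⟨S', hS', hS'c, hI⟩ := indep_lemma (k := k) (m := m) (t := Bk k s) (l := l)
      (S := S) (fun p hp => (h1 p hp).le) (fun u hu => (hr u hu).trans hrk) (by omega)
    obtain ⟨J, hJ, hJc, hJn⟩ := flat_lemma (k := k) (s := s) (l := l) (J0 := S') hI
      (fun u hu => (hr u (hS' hu)).trans hrk) hS'c.ge
    exact ⟨J, hJ.trans hS', hJc, hJn _⟩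

/-- **The selection theorem.** -/
theorem p_sel (h : P_CAT F) : P_SEL F := by
  intro k b r
  induction r with
  | zero =>
    intro _ l S s _ hr hS
    obtain ⟨J, hJ, hJc, hJn⟩ := flat_lemma (k := k) (s := s) (l := l) (J0 := S)
      (by
        intro p hp u hu u' _ h1 _
        have h2 := hr u hu
        have h3 := rdl_pos hp h1
        omega)
      (fun u hu => (hr u hu).trans (Nat.zero_le _)) hS
    exact ⟨J, hJ, hJc, hJn _⟩
  | succ r ih =>
    intro hrk
    exact sel_step h hrk (ih (by omega))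

end Pool.Agent.W2helper98.RF
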